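import Mathlib
import Pool.Agent.H225R3.FoldProof

set_option autoImplicit false

/-!
# Folding real hyperbolic spaces along totally geodesic hyperplanes
-/

open UpperHalfPlane

namespace Pool.Agent.Y34.FO

/-- The upper half space model: `(u, v, y)` with `u` real, `v` in `V` and `y > 0`. For
`V = EuclideanSpace ℝ (Fin m)` this is real hyperbolic space of dimension `m + 2`. -/
structure HN (V : Type) where
  /-- first coordinate -/
  u : ℝ
  /-- the other horizontal coordinates -/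
  v : V
  /-- height -/
  y : ℝ
  pos : 0 < y

variable {V : Type} [NormedAddCommGroup V]

/-- The hyperbolic distance of curvature `-1` in the upper half space model. -/
noncomputable def hd (p q : HN V) : ℝ :=
  2 * Real.arsinh (√((p.u - q.u) ^ 2 + dist p.v q.v ^ 2 + (p.y - q.y) ^ 2) / (2 * √(p.y * q.y)))

/-- The horizontal distance. -/
noncomputable def rr (p q : HN V) : ℝ := √((p.u - q.u) ^ 2 + dist p.v q.v ^ 2)

lemma rr_nonneg (p q : HN V) : 0 ≤ rr p q := Real.sqrt_nonneg _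

lemma rr_triangle (p q r : HN V) : rr p r ≤ rr p q + rr q r := by
  have key : ∀ a b : HN V, rr a b = dist (WithLp.toLp 2 (a.u, a.v)) (WithLp.toLp 2 (b.u, b.v)) := by
    intro a b
    rw [WithLp.prod_dist_eq_of_L2]
    simp only [rr, Real.dist_eq, sq_abs]
  rw [key, key, key]
  exact dist_triangle _ _ _

/-- A point of the upper half plane. -/
def pt (s y : ℝ) (hy : 0 < y) : ℍ := ⟨⟨s, y⟩, hy⟩

lemma hd_eq (p q : HN V) (s t : ℝ) (h : (s - t) ^ 2 = rr p q ^ 2) :
    hd p q = dist (pt s p.y p.pos) (pt t q.y q.pos) := by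
  rw [UpperHalfPlane.dist_eq, Complex.dist_eq_re_im, hd]
  have h1 : (s - t) ^ 2 = (p.u - q.u) ^ 2 + dist p.v q.v ^ 2 := by
    rw [h, rr, Real.sq_sqrt (by positivity)]
  change _ = 2 * Real.arsinh (√((s - t) ^ 2 + (p.y - q.y) ^ 2) / (2 * √(p.y * q.y)))
  rw [h1]

lemma hd_comm (p q : HN V) : hd p q = hd q p := by
  unfold hd
  rw [dist_comm p.v q.v, mul_comm p.y q.y, show (p.u - q.u) ^ 2 = (q.u - p.u) ^ 2 by ring,
    show (p.y - q.y) ^ 2 = (q.y - p.y) ^ 2 by ring]

lemma hd_triangle (p q r : HN V) : hd p r ≤ hd p q + hd q r := by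
  rw [hd_eq p q 0 (rr p q) (by ring), hd_eq q r (rr p q) (rr p q + rr q r) (by ring),
    hd_eq p r 0 (rr p r) (by ring)]
  refine le_trans (Pool.Agent.H225R3.Fold.dist_le_of (z' := pt 0 p.y p.pos)
    (w' := pt (rr p q + rr q r) r.y r.pos) rfl rfl ?_)
    (dist_triangle _ (pt (rr p q) q.y q.pos) _)
  change (0 - rr p r) ^ 2 ≤ (0 - (rr p q + rr q r)) ^ 2
  have h1 := rr_triangle p q r
  have h2 := rr_nonneg p r
  nlinarith

noncomputable instance : MetricSpace (HN V) where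
  dist := hd
  dist_self p := by simp [hd]
  dist_comm := hd_comm
  dist_triangle := hd_triangle
  eq_of_dist_eq_zero := by
    intro p q h
    change hd p q = 0 at h
    rw [hd_eq p q 0 (rr p q) (by ring)] at h
    have h1 := dist_eq_zero.1 h
    have h2 : (0 : ℝ) = rr p q := congrArg UpperHalfPlane.re h1
    have h3 : p.y = q.y := congrArg UpperHalfPlane.im h1
    have h4 : (p.u - q.u) ^ 2 + dist p.v q.v ^ 2 = 0 := by
      have := h2.symm
      rw [rr, Real.sqrt_eq_zero (by positivity)] at this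
      exact this
    have h5 : p.u = q.u := by nlinarith [sq_nonneg (p.u - q.u), sq_nonneg (dist p.v q.v)]
    have h6 : dist p.v q.v = 0 := by
      have : dist p.v q.v ^ 2 = 0 := by nlinarith [sq_nonneg (p.u - q.u)]
      exact pow_eq_zero_iff (two_ne_zero) |>.1 this
    have h7 := dist_eq_zero.1 h6
    cases p; cases q; simp_all

lemma dist_def (p q : HN V) : dist p q = hd p q := rfl

lemma dist_le_of {p q p' q' : HN V} (h1 : p.y = p'.y) (h2 : q.y = q'.y)
    (h3 : dist p.v q.v = dist p'.v q'.v) (h : (p.u - q.u) ^ 2 ≤ (p'.u - q'.u) ^ 2) :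
    dist p q ≤ dist p' q' := by
  rw [dist_def, dist_def, hd_eq p q 0 (rr p q) (by ring), hd_eq p' q' 0 (rr p' q') (by ring)]
  refine Pool.Agent.H225R3.Fold.dist_le_of h1 h2 ?_
  change (0 - rr p q) ^ 2 ≤ (0 - rr p' q') ^ 2
  have e1 : rr p q ^ 2 = (p.u - q.u) ^ 2 + dist p.v q.v ^ 2 := Real.sq_sqrt (by positivity)
  have e2 : rr p' q' ^ 2 = (p'.u - q'.u) ^ 2 + dist p'.v q'.v ^ 2 := Real.sq_sqrt (by positivity)
  rw [zero_sub, zero_sub, neg_sq, neg_sq, e1, e2, h3]
  linarith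

lemma dist_eq_of {p q p' q' : HN V} (h1 : p.y = p'.y) (h2 : q.y = q'.y)
    (h3 : dist p.v q.v = dist p'.v q'.v) (h : (p.u - q.u) ^ 2 = (p'.u - q'.u) ^ 2) :
    dist p q = dist p' q' :=
  le_antisymm (dist_le_of h1 h2 h3 h.le) (dist_le_of h1.symm h2.symm h3.symm h.ge)

/-- the reflection in the hyperplane `u = a` -/
def sg (a : ℝ) (p : HN V) : HN V := ⟨2 * a - p.u, p.v, p.y, p.pos⟩

open Classical in
/-- the folding -/
noncomputable def fo (a : ℝ) (p : HN V) : HN V := if a ≤ p.u then p else sg a p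
open Classical in
/-- the height -/
noncomputable def he (a : ℝ) (p : HN V) : ℝ := if a ≤ p.u then 0 else dist p (sg a p)

variable (a : ℝ)

lemma fo_u (p : HN V) : a ≤ (fo a p).u := by
  unfold fo; split_ifs with h
  · exact h
  · change a ≤ 2 * a - p.u
    linarith [not_le.1 h]

lemma dist_sg_sg (p q : HN V) : dist (sg a p) (sg a q) = dist p q :=
  dist_eq_of rfl rfl rfl (by simp only [sg]; ring)

lemma fo_lip (p q : HN V) : dist (fo a p) (fo a q) ≤ dist p q := by
  unfold fo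
  split_ifs with h1 h2 h2
  · exact le_rfl
  · exact dist_le_of rfl rfl rfl (by simp only [sg]; nlinarith [not_le.1 h2])
  · exact dist_le_of rfl rfl rfl (by simp only [sg]; nlinarith [not_le.1 h1])
  · exact (dist_sg_sg a p q).le

lemma he_lip (z w : HN V) : |he a z - he a w| ≤ 2 * dist z w := by
  unfold he
  split_ifs with h1 h2 h2
  · simp
  · rw [zero_sub, abs_neg, abs_of_nonneg dist_nonneg]
    have a' : dist z (sg a w) ≤ dist z w :=
      dist_le_of rfl rfl rfl (by simp only [sg]; nlinarith [not_le.1 h2])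
    have b := dist_triangle w z (sg a w)
    rw [dist_comm w z] at b
    linarith
  · rw [sub_zero, abs_of_nonneg dist_nonneg]
    have a' : dist (sg a z) w ≤ dist z w :=
      dist_le_of rfl rfl rfl (by simp only [sg]; nlinarith [not_le.1 h1])
    have b := dist_triangle z w (sg a z)
    rw [dist_comm w (sg a z)] at b
    linarith
  · rw [abs_le]
    have a' := dist_triangle z w (sg a z)
    have b := dist_triangle w (sg a w) (sg a z)
    have c := dist_triangle w z (sg a w)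
    have d := dist_triangle z (sg a z) (sg a w)
    rw [dist_comm (sg a w) (sg a z), dist_sg_sg] at b
    rw [dist_sg_sg] at d
    rw [dist_comm w z] at c
    constructor <;> linarith

lemma lower (z w : HN V) : dist z w ≤ dist (fo a z) (fo a w) + |he a z - he a w| := by
  unfold fo he
  split_ifs with h1 h2 h2
  · simp
  · rw [zero_sub, abs_neg, abs_of_nonneg dist_nonneg]
    have b := dist_triangle z (sg a w) w
    rw [dist_comm (sg a w) w] at b
    exact b
  · rw [sub_zero, abs_of_nonneg dist_nonneg]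
    have b := dist_triangle z (sg a z) w
    linarith
  · rw [dist_sg_sg]; linarith [abs_nonneg (dist z (sg a z) - dist w (sg a w))]

lemma far {z w : HN V} (hz : z.u ≤ a) (hw : a ≤ w.u) : dist z (sg a z) ≤ 2 * dist z w := by
  have a' : dist (sg a z) w ≤ dist z w :=
    dist_le_of rfl rfl rfl (by simp only [sg]; nlinarith)
  have b := dist_triangle z w (sg a z)
  rw [dist_comm w (sg a z)] at b
  linarith

lemma dist_sg (p : HN V) (h : p.u ≤ a) : dist p (sg a p) = 2 * Real.arsinh ((a - p.u) / p.y) := by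
  rw [dist_def, hd]
  have h1 : √((p.u - (sg a p).u) ^ 2 + dist p.v (sg a p).v ^ 2 + (p.y - (sg a p).y) ^ 2) =
      2 * (a - p.u) := by
    have e : (p.u - (sg a p).u) ^ 2 + dist p.v (sg a p).v ^ 2 + (p.y - (sg a p).y) ^ 2 =
        (2 * (a - p.u)) ^ 2 := by
      simp only [sg, dist_self]; ring
    rw [e, Real.sqrt_sq (by linarith)]
  have h2 : √(p.y * (sg a p).y) = p.y := by
    change √(p.y * p.y) = p.y
    exact Real.sqrt_mul_self p.pos.le
  rw [h1, h2, mul_div_mul_left _ _ (two_ne_zero)]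

/-- Near the boundary the points left of the hyperplane `u = a` are far from the right side. -/
lemma exists_far {c : ℝ} (hc : c < a) (v : V) (R : ℝ) :
    ∃ p : HN V, p.u = c ∧ ∀ w : HN V, a ≤ w.u → R < dist p w := by
  have hs : 0 < Real.cosh R := Real.cosh_pos R
  set y : ℝ := (a - c) / (2 * Real.cosh R) with hy
  have hy0 : 0 < y := by
    apply div_pos (by linarith)
    linarith
  refine ⟨⟨c, v, y, hy0⟩, rfl, fun w hw => ?_⟩
  have h1 := far a (z := (⟨c, v, y, hy0⟩ : HN V)) (w := w) hc.le hw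
  rw [dist_sg a _ hc.le] at h1
  have h2 : (a - (⟨c, v, y, hy0⟩ : HN V).u) / (⟨c, v, y, hy0⟩ : HN V).y = 2 * Real.cosh R := by
    change (a - c) / y = _
    rw [hy]
    have : a - c ≠ 0 := by linarith
    field_simp
  rw [h2] at h1
  have h3 : R < Real.arsinh (2 * Real.cosh R) := by
    rw [← Real.arsinh_sinh R]
    apply Real.arsinh_lt_arsinh.2
    rw [Real.arsinh_sinh]
    have := Real.sinh_lt_cosh R
    linarith
  linarith

variable (Z : Type) [MetricSpace Z]

/-- The product metric on `HN V × Z`. -/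
noncomputable def dX (x y : HN V × Z) : ℝ := √(hd x.1 y.1 ^ 2 + dist x.2 y.2 ^ 2)

open Pool.Agent.H225R3.Fold (dR FiniteHausdorff)

lemma dX_left (x y : HN V × Z) : dist x.1 y.1 ≤ dX Z x y := by
  unfold dX
  exact Real.le_sqrt_of_sq_le (by rw [dist_def]; nlinarith [sq_nonneg (dist x.2 y.2)])

/-- the map -/
noncomputable def ff (x : HN V × Z) : (HN V × Z) × ℝ := ((fo a x.1, x.2), he a x.1)

lemma bilip (x y : HN V × Z) : 3⁻¹ * dX Z x y ≤ dR (dX Z) (ff a Z x) (ff a Z y) ∧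
    dR (dX Z) (ff a Z x) (ff a Z y) ≤ 3 * dX Z x y := by
  have e : dR (dX Z) (ff a Z x) (ff a Z y) =
      √(dist (fo a x.1) (fo a y.1) ^ 2 + dist x.2 y.2 ^ 2 + (he a x.1 - he a y.1) ^ 2) := by
    unfold dR ff dX
    rw [Real.sq_sqrt (by positivity)]
    rfl
  have e' : dX Z x y = √(dist x.1 y.1 ^ 2 + dist x.2 y.2 ^ 2) := rfl
  rw [e, e']
  have a' := fo_lip a x.1 y.1
  have b := he_lip a x.1 y.1
  have c := lower a x.1 y.1
  have d0 : 0 ≤ dist (fo a x.1) (fo a y.1) := dist_nonneg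
  have e0 : 0 ≤ dist x.1 y.1 := dist_nonneg
  have b2 : (he a x.1 - he a y.1) ^ 2 ≤ (2 * dist x.1 y.1) ^ 2 := by
    rw [← sq_abs]; exact pow_le_pow_left₀ (abs_nonneg _) b 2
  have c2 : dist x.1 y.1 ^ 2 ≤
      2 * (dist (fo a x.1) (fo a y.1) ^ 2 + (he a x.1 - he a y.1) ^ 2) := by
    have h1 := pow_le_pow_left₀ e0 c 2
    have h2 := sq_abs (he a x.1 - he a y.1)
    nlinarith [sq_nonneg (dist (fo a x.1) (fo a y.1) - |he a x.1 - he a y.1|)]
  constructor
  · have h : 3⁻¹ * √(dist x.1 y.1 ^ 2 + dist x.2 y.2 ^ 2) =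
        √((3⁻¹) ^ 2 * (dist x.1 y.1 ^ 2 + dist x.2 y.2 ^ 2)) := by
      rw [Real.sqrt_mul (by norm_num), Real.sqrt_sq (by norm_num)]
    rw [h]
    refine Real.sqrt_le_sqrt ?_
    nlinarith [sq_nonneg (dist x.2 y.2), sq_nonneg (dist (fo a x.1) (fo a y.1)),
      sq_nonneg (he a x.1 - he a y.1)]
  · have h : 3 * √(dist x.1 y.1 ^ 2 + dist x.2 y.2 ^ 2) =
        √(3 ^ 2 * (dist x.1 y.1 ^ 2 + dist x.2 y.2 ^ 2)) := by
      rw [Real.sqrt_mul (by norm_num), Real.sqrt_sq (by norm_num)]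
    rw [h]
    refine Real.sqrt_le_sqrt ?_
    nlinarith [sq_nonneg (dist x.2 y.2), pow_le_pow_left₀ d0 a' 2]

lemma le_dR (s : (HN V × Z) × ℝ) (x : HN V × Z) :
    dist s.1.1 (fo a x.1) ≤ dR (dX Z) s (ff a Z x) := by
  refine le_trans (dX_left Z s.1 (fo a x.1, x.2)) ?_
  unfold dR
  refine Real.le_sqrt_of_sq_le ?_
  change _ ≤ dX Z s.1 (fo a x.1, x.2) ^ 2 + _
  nlinarith [sq_nonneg (s.2 - (ff a Z x).2)]

/-- Not near the graph of any function. -/
lemma not_graph [Nonempty Z] [Nonempty V] (h : HN V × Z → ℝ) :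
    ¬ FiniteHausdorff (dR (dX Z)) (Set.range (ff a Z)) {p | p.2 = h p.1} := by
  rintro ⟨R, -, hR⟩
  obtain ⟨z0⟩ := ‹Nonempty Z›
  obtain ⟨v0⟩ := ‹Nonempty V›
  obtain ⟨p, -, hp⟩ := exists_far a (c := a - 1) (by linarith) v0 R
  obtain ⟨s, ⟨x, rfl⟩, hs⟩ := hR ((p, z0), h (p, z0)) rfl
  have h1 := le_dR a Z ((p, z0), h (p, z0)) x
  have h2 := hp (fo a x.1) (fo_u a x.1)
  exact absurd (h2.trans_le (h1.trans hs)) (lt_irrefl _)

/-- Different foldings are far from each other. -/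
lemma not_near [Nonempty Z] [Nonempty V] {a b : ℝ} (hab : a < b) (R : ℝ) :
    ¬ ∀ s ∈ Set.range (ff (V := V) a Z), ∃ t ∈ Set.range (ff b Z), dR (dX Z) s t ≤ R := by
  intro hR
  obtain ⟨z0⟩ := ‹Nonempty Z›
  obtain ⟨v0⟩ := ‹Nonempty V›
  obtain ⟨p, hpc, hp⟩ := exists_far b (c := (a + b) / 2) (by linarith) v0 R
  obtain ⟨t, ⟨x, rfl⟩, hs⟩ := hR (ff a Z (p, z0)) ⟨_, rfl⟩
  have h1 := le_dR b Z (ff a Z (p, z0)) x
  have h2 := hp (fo b x.1) (fo_u b x.1)
  have h3 : (ff a Z (p, z0)).1.1 = p := by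
    change fo a p = p
    unfold fo
    rw [if_pos (by rw [hpc]; linarith)]
  rw [h3] at h1
  exact absurd (h2.trans_le (h1.trans hs)) (lt_irrefl _)

end Pool.Agent.Y34.FO
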